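import Pool.Agent.H17.SQA.Stmts
import Pool.Agent.H21.CST.LOW

/-!
# SQA, row TRD: the lower bound by the transcendence degree
-/

set_option autoImplicit false

namespace Pool.SQA.TRD61

open MvPolynomial Pool.FOS Pool.FOS.TER Pool.CST Pool.TRN Matrix

/-- Algebraically independent elements of the field generated by a set. -/
theorem card_le {k L ι : Type} [Field k] [Field L] [Algebra k L] [Fintype ι] (x : ι → L)
    (hx : AlgebraicIndependent k x) (S : Set L) (c : ℕ) (hS : S.encard ≤ c)
    (hxS : ∀ i, x i ∈ IntermediateField.adjoin k S) : Fintype.card ι ≤ c := by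
  have h1 : (AlgebraicIndependent.matroid k L).Indep (Set.range x) := by
    rw [AlgebraicIndependent.matroid_indep_iff]
    exact hx.to_subtype_range
  have h2 : Set.range x ⊆ (AlgebraicIndependent.matroid k L).closure S := by
    rintro _ ⟨i, rfl⟩
    rw [AlgebraicIndependent.matroid_closure_eq]
    obtain ⟨a, ha, b, hb, hab⟩ := (IntermediateField.mem_adjoin_iff_div (F := k)).1 (hxS i)
    rw [hab, SetLike.mem_coe, Subalgebra.mem_algebraicClosure, div_eq_mul_inv]
    have h3 : ∀ z ∈ Algebra.adjoin k S, IsAlgebraic (Algebra.adjoin k S) z := fun z hz =>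
      isAlgebraic_algebraMap (⟨z, hz⟩ : Algebra.adjoin k S)
    exact (h3 a ha).mul (h3 b hb).inv
  have h3 : (Set.range x).encard ≤ S.encard := by
    refine (h1.encard_le_eRk_of_subset h2).trans ?_
    rw [Matroid.eRk_closure_eq]
    exact Matroid.eRk_le_encard _ _
  have h4 : (Set.range x).encard = Fintype.card ι := by
    rw [← Set.image_univ, hx.injective.injOn.encard_image, Set.encard_univ]
    simp
  rw [h4] at h3
  exact_mod_cast h3.trans hS


/-- The matrix identity. -/
theorem mat_id {L μ : Type} [Field L] [Fintype μ] {t : ℕ} (A : Matrix (Fin t) μ L)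
    (s : Fin t → μ) :
    ((A.submatrix id s)ᵀ * A)ᵀ * ((A.submatrix id s)ᵀ * A.submatrix id s).adjugate *
        ((A.submatrix id s)ᵀ * A) =
      ((A.submatrix id s)ᵀ * A.submatrix id s).det • (Aᵀ * A) := by
  set E := A.submatrix id s with hE
  have h1 : (Eᵀ * E).adjugate = E.adjugate * Eᵀ.adjugate := Matrix.adjugate_mul_distrib _ _
  have h2 : E * E.adjugate = E.det • (1 : Matrix (Fin t) (Fin t) L) := Matrix.mul_adjugate _
  have h3 : Eᵀ.adjugate * Eᵀ = Eᵀ.det • (1 : Matrix (Fin t) (Fin t) L) := Matrix.adjugate_mul _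
  calc (Eᵀ * A)ᵀ * (Eᵀ * E).adjugate * (Eᵀ * A)
      = Aᵀ * ((E * E.adjugate) * (Eᵀ.adjugate * Eᵀ)) * A := by
        rw [h1, Matrix.transpose_mul, Matrix.transpose_transpose]
        simp only [Matrix.mul_assoc]
    _ = (Eᵀ * E).det • (Aᵀ * A) := by
        rw [h2, h3, Matrix.det_mul]
        simp only [Matrix.smul_mul, Matrix.mul_smul, Matrix.mul_one, smul_smul]

/-- The entries of `Aᵀ A` are in the field generated by the entries of `A_sᵀ A`. -/
theorem mem_of {k L μ : Type} [Field k] [Field L] [Algebra k L] [Fintype μ] {t : ℕ}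
    (A : Matrix (Fin t) μ L) (s : Fin t → μ) (K : IntermediateField k L)
    (hK : ∀ i m, ((A.submatrix id s)ᵀ * A) i m ∈ K) (hdet : (A.submatrix id s).det ≠ 0) (a b : μ) :
    (Aᵀ * A) a b ∈ K := by
  have h1 := mat_id A s
  set E := A.submatrix id s with hE
  have hE2 : Eᵀ * E = (Eᵀ * A).submatrix id s := by
    rw [hE]
    ext i j
    simp [Matrix.mul_apply]
  let B : Matrix (Fin t) μ K := Matrix.of fun i m => ⟨(Eᵀ * A) i m, hK i m⟩
  have hB : B.map (algebraMap K L) = Eᵀ * A := by
    ext i m
    rfl
  have hB2 : (B.submatrix id s).map (algebraMap K L) = Eᵀ * E := by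
    rw [hE2, ← hB]
    rfl
  have h2 : (Bᵀ * (B.submatrix id s).adjugate * B).map (algebraMap K L) =
      (Eᵀ * A)ᵀ * (Eᵀ * E).adjugate * (Eᵀ * A) := by
    rw [Matrix.map_mul, Matrix.map_mul, Matrix.transpose_map, hB]
    have h3 := RingHom.map_adjugate (algebraMap K L) (B.submatrix id s)
    rw [RingHom.mapMatrix_apply, RingHom.mapMatrix_apply, hB2] at h3
    rw [h3]
  have h4 : (Eᵀ * E).det = algebraMap K L (B.submatrix id s).det := by
    rw [RingHom.map_det, RingHom.mapMatrix_apply, hB2]
  have h5 : (Eᵀ * E).det ≠ 0 := by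
    rw [Matrix.det_mul, Matrix.det_transpose]
    exact mul_ne_zero hdet hdet
  have h6 : (Aᵀ * A) a b = algebraMap K L ((B.submatrix id s).det⁻¹ *
      (Bᵀ * (B.submatrix id s).adjugate * B) a b) := by
    have h7 := congrFun (congrFun (h2.trans h1) a) b
    rw [Matrix.map_apply, Matrix.smul_apply, smul_eq_mul] at h7
    rw [map_mul, map_inv₀, ← h4, h7, inv_mul_cancel_left₀ h5]
  rw [h6]
  exact ((B.submatrix id s).det⁻¹ * (Bᵀ * (B.submatrix id s).adjugate * B) a b).2

/-- The number of pairs `(i, m)` which are needed. -/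
theorem count {μ : Type} [Fintype μ] [DecidableEq μ] {t : ℕ} (s : Fin t ↪ μ) :
    ((Finset.univ : Finset (Fin t × μ)).filter fun p => ∀ j, p.2 = s j → p.1 ≤ j).card +
      t.choose 2 ≤ t * Fintype.card μ := by
  have h1 : (((Finset.univ : Finset (Fin t × Fin t)).filter fun p => p.2 < p.1).image
      fun p => (p.1, s p.2)) ⊆ (Finset.univ : Finset (Fin t × μ)).filter
        fun p => ¬ ∀ j, p.2 = s j → p.1 ≤ j := by
    intro p hp
    rw [Finset.mem_image] at hp
    obtain ⟨q, hq, rfl⟩ := hp
    rw [Finset.mem_filter] at hq ⊢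
    exact ⟨Finset.mem_univ _, fun h => absurd (h q.2 rfl) (not_le.2 hq.2)⟩
  have h2 : (((Finset.univ : Finset (Fin t × Fin t)).filter fun p => p.2 < p.1).image
      fun p => (p.1, s p.2)).card = t.choose 2 := by
    rw [Finset.card_image_of_injective _ fun p q h => by
      have h3 := congrArg Prod.fst h
      have h4 := congrArg Prod.snd h
      exact Prod.ext h3 (s.injective h4)]
    have h3 : ((Finset.univ : Finset (Fin t × Fin t)).filter fun p => p.2 < p.1).card =
        ∑ i : Fin t, (i : ℕ) := by
      rw [Finset.card_filter, ← Finset.univ_product_univ, Finset.sum_product]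
      refine Finset.sum_congr rfl fun i _ => ?_
      rw [← Finset.card_filter]
      have : (Finset.univ.filter fun j : Fin t => j < i) = Finset.Iio i := by
        ext j
        simp
      rw [this, Fin.card_Iio]
    rw [h3, Fin.sum_univ_eq_sum_range (fun i => i) t, Finset.sum_range_id, Nat.choose_two_right]
  have h3 := Finset.card_filter_add_card_filter_not (s := (Finset.univ : Finset (Fin t × μ)))
    (fun p => ∀ j, p.2 = s j → p.1 ≤ j)
  have h4 := Finset.card_le_card h1
  rw [h2] at h4
  rw [Finset.card_univ, Fintype.card_prod, Fintype.card_fin] at h3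
  omega


/-- The polynomials `ph` are algebraically independent if the general form is a sum of powers. -/
theorem indep {n k d s : ℕ} (hG : GenLe n k d s) : AlgebraicIndependent ℂ (ph n k d s) := by
  obtain ⟨P, hP, hPF⟩ := hG
  by_contra hnot
  obtain ⟨R, hR, hR0⟩ : ∃ R : MvPolynomial (Ex n (k * d)) ℂ, aeval (ph n k d s) R = 0 ∧ R ≠ 0 := by
    rw [algebraicIndependent_iff] at hnot
    push Not at hnot
    exact hnot
  have hz : P * R = 0 := by
    refine MvPolynomial.funext fun y => ?_
    rw [map_mul, map_zero]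
    by_cases hy : eval y P = 0
    · rw [hy, zero_mul]
    · have hc : (fun m : Ex n (k * d) => coeff m.1 (frm y)) = y := by
        funext m
        rw [coeff_frm, dif_pos m.2]
      obtain ⟨g, hg, hF⟩ := hPF (frm y) (frm_hom y) (by rw [hc]; exact hy)
      set u : Mx n d s → ℂ := fun j => coeff j.2.1 (g j.1) with hu
      have h1 : ∀ m, eval u (ph n k d s m) = y m := by
        intro m
        rw [eval_ph]
        have h2 : ∀ i, (frm fun μ : Ex n d => u (i, μ)) = g i := fun i => frm_coeff (hg i)
        simp only [h2]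
        rw [← hF, coeff_frm, dif_pos m.2]
      have h3 : eval u (aeval (ph n k d s) R) = eval y R := by
        have h4 : (eval u).comp (aeval (ph n k d s) : MvPolynomial (Ex n (k * d)) ℂ →ₐ[ℂ]
            MvPolynomial (Mx n d s) ℂ).toRingHom = eval y := by
          refine MvPolynomial.ringHom_ext (fun r => ?_) fun m => ?_
          · simp
          · simp [h1 m]
        exact DFunLike.congr_fun h4 R
      rw [hR, map_zero] at h3
      rw [← h3, mul_zero]
  rcases mul_eq_zero.1 hz with h | h
  · exact hP h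
  · exact hR0 h

section
variable (n d t : ℕ)

/-- The field of rational functions in the coefficients. -/
abbrev LL : Type := FractionRing (MvPolynomial (Mx n d t) ℂ)

/-- The matrix of the coefficients. -/
noncomputable def AA : Matrix (Fin t) (Ex n d) (LL n d t) :=
  Matrix.of fun i μ => algebraMap (MvPolynomial (Mx n d t) ℂ) (LL n d t) (X (i, μ))

theorem det_ne (s : Fin t ↪ Ex n d) : ((AA n d t).submatrix id s).det ≠ 0 := by
  classical
  let B : Matrix (Fin t) (Fin t) (MvPolynomial (Mx n d t) ℂ) := Matrix.of fun i j => X (i, s j)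
  have h1 : B.map (algebraMap (MvPolynomial (Mx n d t) ℂ) (LL n d t)) =
      (AA n d t).submatrix id s := rfl
  have h2 := RingHom.map_det (algebraMap (MvPolynomial (Mx n d t) ℂ) (LL n d t)) B
  rw [RingHom.mapMatrix_apply, h1] at h2
  rw [← h2]
  intro h3
  have h4 : B.det = 0 := by
    rw [map_eq_zero_iff] at h3
    · exact h3
    · exact IsFractionRing.injective _ _
  let u : Mx n d t → ℂ := fun j => if j.2 = s j.1 then 1 else 0
  have h5 := RingHom.map_det (eval u) B
  have h6 : (eval u).mapMatrix B = 1 := by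
    ext i j
    rw [RingHom.mapMatrix_apply, Matrix.map_apply, Matrix.one_apply]
    change eval u (X (i, s j)) = _
    rw [eval_X]
    change (if s j = s i then (1 : ℂ) else 0) = _
    by_cases h : i = j
    · rw [if_pos h, if_pos (by rw [h])]
    · rw [if_neg h, if_neg fun h7 => h (s.injective h7).symm]
  rw [h4, map_zero, h6, Matrix.det_one] at h5
  exact zero_ne_one h5

theorem ph_mem (K : IntermediateField ℂ (LL n d t))
    (hK : ∀ a b, ((AA n d t)ᵀ * AA n d t) a b ∈ K) (m : Ex n (2 * d)) :
    algebraMap (MvPolynomial (Mx n d t) ℂ) (LL n d t) (ph n 2 d t m) ∈ K := by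
  classical
  have h1 : ph n 2 d t m = ∑ p ∈ Finset.HasAntidiagonal.antidiagonal m.1, ∑ i : Fin t,
      (coeff p.1 (frm fun μ : Ex n d => (X (i, μ) : MvPolynomial (Mx n d t) ℂ))) *
        coeff p.2 (frm fun μ : Ex n d => (X (i, μ) : MvPolynomial (Mx n d t) ℂ)) := by
    unfold ph Gu
    rw [coeff_sum, Finset.sum_comm]
    refine Finset.sum_congr rfl fun i _ => ?_
    rw [pow_two, coeff_mul]
  rw [h1, map_sum]
  refine sum_mem fun p _ => ?_
  by_cases ha : p.1.degree = d
  · by_cases hb : p.2.degree = d
    · have h2 := hK ⟨p.1, ha⟩ ⟨p.2, hb⟩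
      rw [Matrix.mul_apply] at h2
      rw [map_sum]
      refine cast (congrArg (· ∈ K) (Finset.sum_congr rfl fun i _ => ?_)) h2
      rw [coeff_frm, dif_pos ha, coeff_frm, dif_pos hb, map_mul]
      rfl
    · rw [Finset.sum_eq_zero, map_zero]
      · exact zero_mem K
      · intro i _
        rw [coeff_frm _ p.2, dif_neg hb, mul_zero]
  · rw [Finset.sum_eq_zero, map_zero]
    · exact zero_mem K
    · intro i _
      rw [coeff_frm _ p.1, dif_neg ha, zero_mul]

end

end Pool.SQA.TRD61

namespace Pool.SQA

open MvPolynomial Pool.FOS Pool.FOS.TER Pool.CST Pool.TRN TRD61 Matrix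

theorem t_trd : TRDStmt := by
  classical
  intro n d t hn ht hlt hG
  have hcard : ∀ D, Fintype.card (Ex n D) = mon n D := by
    intro D
    obtain ⟨p, rfl⟩ : ∃ p, n = p + 1 := ⟨n - 1, by omega⟩
    rw [← Nat.card_eq_fintype_card, card_deg]
    rfl
  obtain ⟨s⟩ : Nonempty (Fin t ↪ Ex n d) := by
    rw [Function.Embedding.nonempty_iff_card_le, Fintype.card_fin, hcard]
    exact ht
  let f : Fin t × Ex n d → LL n d t := fun p =>
    (((AA n d t).submatrix id s)ᵀ * AA n d t) p.1 p.2
  let J := (Finset.univ : Finset (Fin t × Ex n d)).filter fun p => ∀ j, p.2 = s j → p.1 ≤ j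
  let S : Set (LL n d t) := ((J.image f : Finset (LL n d t)) : Set (LL n d t))
  have hJ := count s
  have hcS : S.encard ≤ (J.card : ℕ) := by
    rw [Set.encard_coe_eq_coe_finsetCard]
    exact_mod_cast Finset.card_image_le
  have hin : ∀ p ∈ J, f p ∈ IntermediateField.adjoin ℂ S := fun p hp =>
    IntermediateField.subset_adjoin ℂ S (Finset.mem_coe.2 (Finset.mem_image_of_mem f hp))
  have hall : ∀ i m, f (i, m) ∈ IntermediateField.adjoin ℂ S := by
    intro i m
    by_cases h : (i, m) ∈ J
    · exact hin _ h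
    · have h1 : ¬ ∀ j, m = s j → i ≤ j := fun h2 =>
        h (Finset.mem_filter.2 ⟨Finset.mem_univ _, h2⟩)
      push Not at h1
      obtain ⟨j, hj, hji⟩ := h1
      have h2 : f (i, m) = f (j, s i) := by
        change (((AA n d t).submatrix id s)ᵀ * AA n d t) i m =
          (((AA n d t).submatrix id s)ᵀ * AA n d t) j (s i)
        rw [Matrix.mul_apply, Matrix.mul_apply, hj]
        refine Finset.sum_congr rfl fun k _ => ?_
        rw [Matrix.transpose_apply, Matrix.transpose_apply, Matrix.submatrix_apply,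
          Matrix.submatrix_apply, id, mul_comm]
      rw [h2]
      refine hin _ (Finset.mem_filter.2 ⟨Finset.mem_univ _, fun j' hj' => ?_⟩)
      have h3 : i = j' := s.injective hj'
      rw [← h3]
      exact hji.le
  have hG2 : ∀ a b, ((AA n d t)ᵀ * AA n d t) a b ∈ IntermediateField.adjoin ℂ S := fun a b =>
    mem_of (AA n d t) s _ hall (det_ne n d t s) a b
  have hind : AlgebraicIndependent ℂ fun m : Ex n (2 * d) =>
      algebraMap (MvPolynomial (Mx n d t) ℂ) (LL n d t) (ph n 2 d t m) := by
    have h1 := (indep hG).map' (f := IsScalarTower.toAlgHom ℂ (MvPolynomial (Mx n d t) ℂ)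
      (LL n d t)) (IsFractionRing.injective _ _)
    exact h1
  have hfin := card_le _ hind S J.card hcS fun m => ph_mem n d t _ hG2 m
  rw [hcard] at hfin
  rw [hcard] at hJ
  have : J.card + t.choose 2 ≤ t * mon n d := hJ
  omega

end Pool.SQA
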